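import Pool.Agent.K6.H73.TP.Pot

set_option autoImplicit false

namespace Pool.Agent.K6.H73.TP

open Pool.Agent.H948R3.TP Sum

variable {n m r : ℕ}

theorem upper_avg (hr : 2 ≤ r) : tp r n m ≤ n + (r - 1) ^ n * m / r ^ n := by
  classical
  apply tp_le
  intro χ
  obtain ⟨c, hc⟩ := avg_ext (by omega : 0 < r) χ Finset.univ Finset.univ
  rw [Finset.card_univ, Finset.card_univ, Fintype.card_fin, Fintype.card_fin] at hc
  have h1 := part_stars χ (by omega : 0 < r) c
  refine h1.mono ?_
  rw [Fintype.card_fin]
  apply Nat.add_le_add_left
  rw [Nat.le_div_iff_mul_le (by positivity), Nat.mul_comm]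
  have e : (Finset.univ.filter (fun y : Fin m => ∀ x ∈ (Finset.univ : Finset (Fin n)),
      χ x y ≠ c x)) = Finset.univ.filter (fun y => ∀ x, χ x y ≠ c x) := by
    ext y
    simp
  rw [e] at hc
  exact hc

/-- bounds for all sizes -/
theorem bounds (hr : 2 ≤ r) :
    (((r : ℝ) - 1) / r) ^ n * m - 2 * Real.sqrt ((((r : ℝ) - 1) / r) ^ n * m * (n * Real.log r)) ≤
      tp r n m ∧
    (tp r n m : ℝ) ≤ (((r : ℝ) - 1) / r) ^ n * m + n := by
  have hr2 : (2 : ℝ) ≤ r := by exact_mod_cast hr
  have hr0 : (0 : ℝ) < r := by linarith
  have hr1 : (0 : ℝ) < (r : ℝ) - 1 := by linarith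
  constructor
  · set μ : ℝ := (((r : ℝ) - 1) / r) ^ n * m with hμ
    set L : ℝ := n * Real.log r with hL
    have hμ0 : 0 ≤ μ := by rw [hμ]; positivity
    have hlog : 0 ≤ Real.log r := Real.log_nonneg (by linarith)
    have hL0 : 0 ≤ L := by rw [hL]; positivity
    rcases hμ0.eq_or_lt with h0 | h0
    · rw [← h0]
      simp
    rcases hL0.eq_or_lt with h1 | h1
    · -- n = 0
      have hn : n = 0 := by
        rcases Nat.eq_zero_or_pos n with h | h
        · exact h
        · exfalso
          have : 0 < L := by
            rw [hL]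
            have h2 : 0 < Real.log r := Real.log_pos (by linarith)
            have h3 : (0 : ℝ) < n := by exact_mod_cast h
            positivity
          linarith
      rw [← h1, mul_zero, Real.sqrt_zero, mul_zero, sub_zero, hμ]
      subst hn
      rw [pow_zero, one_mul]
      have : m ≤ tp r 0 m := by
        refine le_tp (by omega) (fun χ => part_total (by omega) χ)
          (fun x _ => x.elim0) ?_
        intro c
        have : (Finset.univ.filter (fun y : Fin m => ∀ x : Fin 0,
            (fun (x : Fin 0) (_ : Fin m) => (x.elim0 : Fin r)) x y ≠ c x)) = Finset.univ := by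
          ext y
          simp
        rw [this, Finset.card_univ, Fintype.card_fin]
        omega
      exact_mod_cast this
    · -- main case
      by_cases hbig : L < μ
      · set s : ℝ := Real.sqrt (μ * L) with hs
        have hs2 : s * s = μ * L := Real.mul_self_sqrt (by positivity)
        have hs0 : 0 < s := Real.sqrt_pos.2 (by positivity)
        have hl0 : 0 < s / μ := by positivity
        have hl1 : s / μ < 1 := by
          rw [div_lt_one h0]
          by_contra hcon
          push Not at hcon
          nlinarith
        obtain ⟨χ, hχ⟩ := exists_good (n := n) (m := m) (by omega : 1 ≤ r) (s / μ) hl0 hl1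
        have e1 : (1 - s / μ) * μ = μ - s := by
          field_simp
        have e2 : L / (s / μ) = s := by
          rw [div_div_eq_mul_div, div_eq_iff hs0.ne', mul_comm L μ]
          exact hs2.symm
        have key : ∀ c, μ - 2 * s ≤ (bad χ c : ℝ) := by
          intro c
          have := hχ c
          rw [← hμ, ← hL, e1, e2] at this
          linarith
        have hle : ⌈μ - 2 * s⌉₊ ≤ tp r n m := by
          refine le_tp (by omega) (fun χ => part_total (by omega) χ) χ ?_
          intro c
          refine le_trans ?_ (Nat.le_add_right _ _)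
          exact Nat.ceil_le.2 (key c)
        exact (Nat.le_ceil _).trans (by exact_mod_cast hle)
      · push Not at hbig
        have h2 : μ ≤ Real.sqrt (μ * L) := by
          apply Real.le_sqrt_of_sq_le
          nlinarith
        have h3 : (0 : ℝ) ≤ tp r n m := Nat.cast_nonneg _
        linarith
  · have h1 : (tp r n m : ℝ) ≤ ((n + (r - 1) ^ n * m / r ^ n : ℕ) : ℝ) := by
      exact_mod_cast upper_avg hr
    have h2 : (((r - 1) ^ n * m / r ^ n : ℕ) : ℝ) ≤ (((r : ℝ) - 1) / r) ^ n * m := by
      refine Nat.cast_div_le.trans ?_
      push_cast [Nat.cast_sub (by omega : 1 ≤ r)]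
      rw [div_pow, div_mul_eq_mul_div]
    push_cast at h1
    push_cast at h2
    linarith

end Pool.Agent.K6.H73.TP
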