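import Pool.Agent.K6.H73.TP.Bounds

set_option autoImplicit false

namespace Pool.Agent.K6.H73.TP

open Pool.Agent.H948R3.TP Sum

variable {n m r : ℕ}

/-- the cover number is at most `2 r` -/
theorem tc_le_two (hr : 1 ≤ r) (hn : 1 ≤ n) (hm : 1 ≤ m) : tc r n m ≤ 2 * r := by
  classical
  apply Nat.sInf_le
  intro c
  let x0 : Fin n := ⟨0, hn⟩
  let y0 : Fin m := ⟨0, hm⟩
  let I := Fin r ⊕ Fin r
  have hI : Fintype.card I = 2 * r := by
    rw [Fintype.card_sum, Fintype.card_fin]; ring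
  let S : I → Set (Fin n ⊕ Fin m) := fun a => match a with
    | inl i => {v | v = inl x0 ∨ ∃ y, v = inr y ∧ chi c x0 y = i}
    | inr i => {v | v = inr y0 ∨ ∃ x, v = inl x ∧ chi c x y0 = i}
  have hT : ∀ a : I, ∃ T : (completeBipartiteGraph (Fin n) (Fin m)).Subgraph,
      T.verts = S a ∧ IsMonoTree _ c T := by
    rintro (i | i)
    · refine tree_of_conn _ c (colG (chi c) i) i (colG_sub c i) _ ?_
      refine conn_x _ _ _ x0 (Or.inl rfl) ?_ ?_
      · rintro y (h | ⟨y', h1, h2⟩)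
        · cases h
        · cases h1; exact h2
      · rintro x (h | ⟨y', h1, h2⟩)
        · left; exact Sum.inl.inj h
        · cases h1
    · refine tree_of_conn _ c (colG (chi c) i) i (colG_sub c i) _ ?_
      refine conn_y _ _ _ y0 (Or.inl rfl) ?_ ?_
      · rintro x (h | ⟨x', h1, h2⟩)
        · cases h
        · cases h1; exact h2
      · rintro y (h | ⟨x', h1, h2⟩)
        · left; exact Sum.inr.inj h
        · cases h1
  choose T hT1 hT2 using hT
  let e : I ≃ Fin (Fintype.card I) := Fintype.equivFin I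
  refine ⟨Fintype.card I, hI.le, fun a => T (e.symm a), fun a => hT2 _, ?_⟩
  have hmain : ∀ v, ∃ a : I, v ∈ (T a).verts := by
    rintro (x | y)
    · refine ⟨inr (chi c x y0), ?_⟩
      rw [hT1]
      exact Or.inr ⟨x, rfl, rfl⟩
    · refine ⟨inl (chi c x0 y), ?_⟩
      rw [hT1]
      exact Or.inr ⟨y, rfl, rfl⟩
  intro v
  obtain ⟨a, ha⟩ := hmain v
  refine ⟨e a, ?_⟩
  show v ∈ (T (e.symm (e a))).verts
  rwa [Equiv.symm_apply_apply]

theorem gap (hr : 2 ≤ r) (hn : 1 ≤ n) (hm : 16 * r * n * r ^ n ≤ (r - 1) ^ n * m) :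
    4 * n * tc r n m ≤ tp r n m ∧ tc r n m ≤ 2 * r := by
  have hr2 : (2 : ℝ) ≤ r := by exact_mod_cast hr
  have hr0 : (0 : ℝ) < r := by linarith
  have hr1 : (0 : ℝ) < (r : ℝ) - 1 := by linarith
  have hn1 : (1 : ℝ) ≤ n := by exact_mod_cast hn
  have hm1 : 1 ≤ m := by
    by_contra h
    have h0 : m = 0 := by omega
    rw [h0, Nat.mul_zero] at hm
    have : 0 < 16 * r * n * r ^ n := by positivity
    omega
  have htc := tc_le_two (r := r) (by omega) hn hm1
  set μ : ℝ := (((r : ℝ) - 1) / r) ^ n * m with hμ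
  have hmR : 16 * (r : ℝ) * n * (r : ℝ) ^ n ≤ ((r : ℝ) - 1) ^ n * m := by
    have : ((16 * r * n * r ^ n : ℕ) : ℝ) ≤ (((r - 1) ^ n * m : ℕ) : ℝ) := by exact_mod_cast hm
    push_cast [Nat.cast_sub (by omega : 1 ≤ r)] at this
    exact this
  have hμlow : 16 * (r : ℝ) * n ≤ μ := by
    rw [hμ, div_pow, div_mul_eq_mul_div, le_div_iff₀ (by positivity)]
    exact hmR
  have hlog : Real.log r ≤ (r : ℝ) := by
    have := Real.log_le_sub_one_of_pos hr0
    linarith
  have hlog0 : 0 ≤ Real.log r := Real.log_nonneg (by linarith)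
  have hμ0 : 0 < μ := lt_of_lt_of_le (by positivity) hμlow
  have hb := (bounds (n := n) (m := m) hr).1
  rw [← hμ] at hb
  have hsq : Real.sqrt (μ * (n * Real.log r)) ≤ μ / 4 := by
    apply Real.sqrt_le_iff.2
    refine ⟨by positivity, ?_⟩
    have h1 : (n : ℝ) * Real.log r ≤ μ / 16 := by
      have : (n : ℝ) * Real.log r ≤ n * r := mul_le_mul_of_nonneg_left hlog (by positivity)
      linarith
    calc μ * (n * Real.log r) ≤ μ * (μ / 16) := mul_le_mul_of_nonneg_left h1 hμ0.le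
      _ = (μ / 4) ^ 2 := by ring
  have h2 : 8 * (r : ℝ) * n ≤ tp r n m := by linarith
  have h3 : 8 * r * n ≤ tp r n m := by exact_mod_cast h2
  refine ⟨?_, htc⟩
  calc 4 * n * tc r n m ≤ 4 * n * (2 * r) := Nat.mul_le_mul_left _ htc
    _ = 8 * r * n := by ring
    _ ≤ _ := h3

end Pool.Agent.K6.H73.TP
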