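import Pool.Agent.H948R3.TPSimple

set_option autoImplicit false

namespace Pool.Agent.K6.H73.TP

open Pool.Agent.H948R3.TP Sum Finset

variable {n m r : ℕ}

/-- number of columns avoiding `c` in all places -/
def bad (χ : Fin n → Fin m → Fin r) (c : Fin n → Fin r) : ℕ :=
  (univ.filter (fun y => ∀ x, χ x y ≠ c x)).card

/-- the exponential moment of the number of bad columns, averaged over all matrices -/
theorem potential (hr : 1 ≤ r) (l : ℝ) (hl0 : 0 ≤ l) (hl1 : l ≤ 1) :
    ∃ χ : Fin n → Fin m → Fin r, ∑ c, (1 - l) ^ (bad χ c) ≤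
      (r : ℝ) ^ n * (1 - l * (((r : ℝ) - 1) / r) ^ n) ^ m := by
  classical
  have hr0 : (0 : ℝ) < r := by exact_mod_cast hr
  set w : (Fin n → Fin r) → (Fin n → Fin r) → ℝ := fun t c =>
    if ∀ x, t x ≠ c x then 1 - l else 1 with hw
  have hprod : ∀ (t : Fin m → (Fin n → Fin r)) c,
      (1 - l) ^ (bad (fun x y => t y x) c) = ∏ y, w (t y) c := by
    intro t c
    rw [hw]
    simp only
    rw [Finset.prod_ite, Finset.prod_const, Finset.prod_const_one, mul_one]
    rfl
  have hsw : ∀ c, ∑ s, w s c = (r : ℝ) ^ n - l * ((r : ℝ) - 1) ^ n := by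
    intro c
    have h1 : ∀ s, w s c = 1 - l * (if ∀ x, s x ≠ c x then 1 else 0) := by
      intro s
      rw [hw]
      simp only
      split_ifs <;> ring
    rw [Finset.sum_congr rfl (fun s _ => h1 s), Finset.sum_sub_distrib, ← Finset.mul_sum,
      Finset.sum_boole, card_avoid]
    simp only [sum_const, card_univ, Fintype.card_pi, Fintype.card_fin, prod_const, smul_eq_mul]
    rw [nsmul_eq_mul, mul_one]
    push_cast [Nat.cast_sub hr]
    ring
  have htot : ∑ t : Fin m → (Fin n → Fin r), ∑ c, (1 - l) ^ (bad (fun x y => t y x) c) =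
      (r : ℝ) ^ n * ((r : ℝ) ^ n - l * ((r : ℝ) - 1) ^ n) ^ m := by
    rw [Finset.sum_comm]
    have h2 : ∀ c : Fin n → Fin r, ∑ t : Fin m → (Fin n → Fin r),
        (1 - l) ^ (bad (fun x y => t y x) c) = ((r : ℝ) ^ n - l * ((r : ℝ) - 1) ^ n) ^ m := by
      intro c
      rw [Finset.sum_congr rfl (fun t _ => hprod t c), ← hsw c, Fintype.sum_pow]
    rw [Finset.sum_congr rfl (fun c _ => h2 c)]
    simp only [sum_const, card_univ, Fintype.card_pi, Fintype.card_fin, prod_const, nsmul_eq_mul]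
    push_cast
    rfl
  have hconst : ∑ _t : Fin m → (Fin n → Fin r), ((r : ℝ) ^ n *
      (1 - l * (((r : ℝ) - 1) / r) ^ n) ^ m) =
      (r : ℝ) ^ n * ((r : ℝ) ^ n - l * ((r : ℝ) - 1) ^ n) ^ m := by
    simp only [sum_const, card_univ, Fintype.card_pi, Fintype.card_fin, prod_const, nsmul_eq_mul]
    push_cast
    have h3 : ((r : ℝ) ^ n - l * ((r : ℝ) - 1) ^ n) =
        (r : ℝ) ^ n * (1 - l * (((r : ℝ) - 1) / r) ^ n) := by
      rw [div_pow]
      field_simp
    rw [h3, mul_pow]
    ring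
  obtain ⟨t, _, ht⟩ := Finset.exists_le_of_sum_le (s := (univ : Finset (Fin m → (Fin n → Fin r))))
    (f := fun t => ∑ c, (1 - l) ^ (bad (fun x y => t y x) c))
    (g := fun _ => (r : ℝ) ^ n * (1 - l * (((r : ℝ) - 1) / r) ^ n) ^ m)
    (by
      have : Nonempty (Fin r) := ⟨⟨0, hr⟩⟩
      exact Finset.univ_nonempty) (by rw [htot, hconst])
  exact ⟨fun x y => t y x, ht⟩

/-- a matrix all of whose numbers of bad columns are large -/
theorem exists_good (hr : 1 ≤ r) (l : ℝ) (hl0 : 0 < l) (hl1 : l < 1) :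
    ∃ χ : Fin n → Fin m → Fin r, ∀ c,
      (1 - l) * ((((r : ℝ) - 1) / r) ^ n * m) - n * Real.log r / l ≤ (bad χ c : ℝ) := by
  classical
  have hr0 : (0 : ℝ) < r := by exact_mod_cast hr
  have hr1 : (1 : ℝ) ≤ r := by exact_mod_cast hr
  obtain ⟨χ, hχ⟩ := potential (n := n) (m := m) hr l hl0.le hl1.le
  refine ⟨χ, fun c => ?_⟩
  set p : ℝ := (((r : ℝ) - 1) / r) ^ n with hp
  have hp0 : 0 ≤ p := by
    apply pow_nonneg
    apply div_nonneg <;> linarith
  have hp1 : p ≤ 1 := by
    apply pow_le_one₀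
    · apply div_nonneg <;> linarith
    · rw [div_le_one hr0]; linarith
  have h1 : (1 - l) ^ (bad χ c) ≤ (r : ℝ) ^ n * (1 - l * p) ^ m := by
    refine le_trans ?_ hχ
    exact Finset.single_le_sum (f := fun c => (1 - l) ^ (bad χ c))
      (fun c _ => pow_nonneg (by linarith) _) (mem_univ c)
  have hlp : l * p < 1 := by nlinarith
  have h2 : (1 - l * p) ^ m ≤ Real.exp (-(l * p * m)) := by
    have h3 : 1 - l * p ≤ Real.exp (-(l * p)) := by
      have := Real.add_one_le_exp (-(l * p))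
      linarith
    calc (1 - l * p) ^ m ≤ (Real.exp (-(l * p))) ^ m :=
          pow_le_pow_left₀ (by linarith) h3 m
      _ = Real.exp (-(l * p * m)) := by
          rw [← Real.exp_nat_mul]
          congr 1
          ring
  have h4 : (1 - l) ^ (bad χ c) ≤ (r : ℝ) ^ n * Real.exp (-(l * p * m)) :=
    h1.trans (mul_le_mul_of_nonneg_left h2 (by positivity))
  have h5 : (bad χ c : ℝ) * Real.log (1 - l) ≤ n * Real.log r - l * p * m := by
    have h6 := Real.log_le_log (by apply pow_pos; linarith) h4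
    rw [Real.log_mul (by positivity) (Real.exp_pos _).ne', Real.log_exp, Real.log_pow,
      Real.log_pow, ← sub_eq_add_neg] at h6
    exact h6
  have h7 : 1 - (1 - l)⁻¹ ≤ Real.log (1 - l) := Real.one_sub_inv_le_log_of_pos (by linarith)
  have h8 : 1 - (1 - l)⁻¹ = -(l / (1 - l)) := by
    have : (1 - l) ≠ 0 := by linarith
    field_simp
    ring
  rw [h8] at h7
  have h9 : (bad χ c : ℝ) * (-(l / (1 - l))) ≤ n * Real.log r - l * p * m :=
    (mul_le_mul_of_nonneg_left h7 (Nat.cast_nonneg _)).trans h5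
  have h10 : l * p * m - n * Real.log r ≤ (bad χ c : ℝ) * l / (1 - l) := by
    have : (bad χ c : ℝ) * l / (1 - l) = -((bad χ c : ℝ) * (-(l / (1 - l)))) := by ring
    rw [this]
    linarith
  rw [le_div_iff₀ (by linarith)] at h10
  have hlog : 0 ≤ Real.log r := Real.log_nonneg hr1
  have h11 : (1 - l) * (p * m) - n * Real.log r / l ≤ (l * p * m - n * Real.log r) * (1 - l) / l := by
    have e1 : (l * p * m - n * Real.log r) * (1 - l) / l =
        (1 - l) * (p * m) - n * Real.log r / l + n * Real.log r := by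
      field_simp
      ring
    rw [e1]
    have : 0 ≤ (n : ℝ) * Real.log r := by positivity
    linarith
  refine h11.trans ?_
  rw [div_le_iff₀ hl0]
  exact h10

end Pool.Agent.K6.H73.TP
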