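import Pool.Agent.K6.H73.TP.Pot

set_option autoImplicit false

namespace Pool.Agent.K6.H73.TP

open Pool.Agent.H948R3.TP Sum

variable {n m r : ℕ}

/-- the upper bound for any threshold for which the few colourings without many common neighbours
are harmless -/
theorem upper_gen (hr : 2 ≤ r) (K : ℕ)
    (hK : ∀ b β N : ℕ, 2 ≤ n → r ^ (n - 2) * b ≤ (r - 1) ^ (n - 2) * β →
      (2 * r + 1) * β ≤ N + (2 * r - 3) * m → N < n → n + b ≤ K)
    (h : ∀ χ : Fin n → Fin m → Fin r, ∃ c : Fin n → Fin r,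
      (Finset.univ.filter (fun y => ∀ x, χ x y ≠ c x)).card + (Finset.univ.image c).card ≤ K) :
    tp r n m ≤ K := by
  classical
  apply tp_le
  intro χ
  by_cases hcon : ∀ x x' : Fin n, ∀ i : Fin r, x ≠ x' →
      n ≤ (Finset.univ.filter (fun y => χ x y = i ∧ χ x' y = i)).card
  · obtain ⟨c, hc⟩ := h χ
    exact (part_connect (by omega) χ hcon c).mono hc
  · push Not at hcon
    obtain ⟨x0, x1, i, hne, hN⟩ := hcon
    have hr0 : 0 < r := by omega
    obtain ⟨⟨a, b⟩, _, hab⟩ := Finset.exists_min_image (Finset.univ : Finset (Fin r × Fin r))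
      (fun p => (Finset.univ.filter (fun y => χ x0 y ≠ p.1 ∧ χ x1 y ≠ p.2)).card)
      ⟨(⟨0, hr0⟩, ⟨0, hr0⟩), Finset.mem_univ _⟩
    set Z := Finset.univ.filter (fun y => χ x0 y ≠ a ∧ χ x1 y ≠ b) with hZ
    have hβ : ∀ a' b' : Fin r,
        Z.card ≤ (Finset.univ.filter (fun y => χ x0 y ≠ a' ∧ χ x1 y ≠ b')).card :=
      fun a' b' => hab (a', b') (Finset.mem_univ _)
    have hβ' : ∀ a' b' : Fin r,
        Z.card ≤ (Finset.univ.filter (fun y => χ x1 y ≠ a' ∧ χ x0 y ≠ b')).card := by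
      intro a' b'
      have := hβ b' a'
      have h2 : Finset.univ.filter (fun y => χ x1 y ≠ a' ∧ χ x0 y ≠ b') =
          Finset.univ.filter (fun y => χ x0 y ≠ b' ∧ χ x1 y ≠ a') := by
        ext y
        simp only [Finset.mem_filter, and_comm]
      rw [h2]
      exact this
    have h1 := pair_count hr χ x0 x1 i Z.card hβ
    have h2 := pair_count hr χ x1 x0 i Z.card hβ'
    have h3 := hβ i i
    -- inclusion and exclusion
    have h4 := Finset.card_filter_add_card_filter_not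
      (s := Finset.univ.filter (fun y => χ x0 y ≠ i)) (fun y => χ x1 y = i)
    have h5 := Finset.card_filter_add_card_filter_not
      (s := (Finset.univ : Finset (Fin m))) (fun y => χ x0 y = i)
    have h6 := Finset.card_filter_add_card_filter_not
      (s := Finset.univ.filter (fun y => χ x1 y = i)) (fun y => χ x0 y = i)
    rw [Finset.filter_filter, Finset.filter_filter] at h4 h6
    rw [Finset.card_univ, Fintype.card_fin] at h5
    have h7 : (Finset.univ.filter (fun y => χ x1 y = i ∧ ¬ χ x0 y = i)) =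
        (Finset.univ.filter (fun y => χ x0 y ≠ i ∧ χ x1 y = i)) := by
      ext y
      simp only [Finset.mem_filter, and_comm, ne_eq]
    have h8 : (Finset.univ.filter (fun y => χ x1 y = i ∧ χ x0 y = i)) =
        (Finset.univ.filter (fun y => χ x0 y = i ∧ χ x1 y = i)) := by
      ext y
      simp only [Finset.mem_filter, and_comm]
    rw [h7, h8] at h6
    obtain ⟨c, hc⟩ := avg_ext hr0 χ ((Finset.univ.erase x0).erase x1) Z
    have hn2 : 2 ≤ n := by
      by_contra hlt
      apply hne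
      apply Fin.ext
      have := x0.2
      have := x1.2
      omega
    have hScard : ((Finset.univ.erase x0).erase x1).card = n - 2 := by
      rw [Finset.card_erase_of_mem (Finset.mem_erase.2 ⟨hne.symm, Finset.mem_univ _⟩),
        Finset.card_erase_of_mem (Finset.mem_univ _), Finset.card_univ, Fintype.card_fin]
      omega
    rw [hScard] at hc
    let c' : Fin n → Fin r := Function.update (Function.update c x0 a) x1 b
    have hbad : Finset.univ.filter (fun y => ∀ x, χ x y ≠ c' x) =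
        Z.filter (fun y => ∀ x ∈ ((Finset.univ.erase x0).erase x1), χ x y ≠ c x) := by
      have c1 : c' x1 = b := Function.update_self _ _ _
      have c0 : c' x0 = a := by
        show Function.update (Function.update c x0 a) x1 b x0 = a
        rw [Function.update_of_ne hne, Function.update_self]
      have cx : ∀ x, x ≠ x0 → x ≠ x1 → c' x = c x := by
        intro x h h'
        show Function.update (Function.update c x0 a) x1 b x = c x
        rw [Function.update_of_ne h', Function.update_of_ne h]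
      ext y
      simp only [Finset.mem_filter, Finset.mem_univ, true_and, Finset.mem_erase, and_true, hZ]
      constructor
      · intro h
        refine ⟨⟨?_, ?_⟩, ?_⟩
        · have := h x0; rwa [c0] at this
        · have := h x1; rwa [c1] at this
        · rintro x ⟨hx1, hx0⟩
          have := h x; rwa [cx x hx0 hx1] at this
      · rintro ⟨⟨h1, h2⟩, h3⟩ x
        by_cases hx0 : x = x0
        · rw [hx0, c0]; exact h1
        · by_cases hx1 : x = x1
          · rw [hx1, c1]; exact h2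
          · rw [cx x hx0 hx1]; exact h3 x ⟨hx1, hx0⟩
    have hps := part_stars χ hr0 c'
    refine hps.mono ?_
    rw [Fintype.card_fin, hbad]
    refine hK _ Z.card (Finset.univ.filter (fun y => χ x0 y = i ∧ χ x1 y = i)).card hn2 hc ?_ hN
    obtain ⟨u, rfl⟩ : ∃ u, r = u + 2 := ⟨r - 2, by omega⟩
    rw [Nat.add_sub_cancel] at h1 h2
    have e0 : 2 * (u + 2) - 3 = 2 * u + 1 := by omega
    have e1 : (2 * (u + 2) + 1) * Z.card = (u + 2) * Z.card + (u + 2) * Z.card + Z.card := by ring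
    have e2 : (2 * u + 1) * m = u * m + u * m + m := by ring
    rw [e0, e1, e2]
    simp only [ne_eq] at h3 h4 h5 h6 ⊢
    omega


/-- the arithmetic behind the reduction -/
theorem arith_gen (hr : 2 ≤ r) (hn : 2 ≤ n) (hm : 16 * r ^ 7 * n * r ^ n ≤ (r - 1) ^ n * m)
    (b β N : ℕ) (hb : r ^ (n - 2) * b ≤ (r - 1) ^ (n - 2) * β)
    (hβ : (2 * r + 1) * β ≤ N + (2 * r - 3) * m) (hN : N < n) (K : ℕ)
    (hK : ∀ l : ℝ, 0 < l → l < 1 →
      (1 - l) * ((((r : ℝ) - 1) / r) ^ n * m) - n * Real.log r / l ≤ (K : ℝ)) : n + b ≤ K := by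
  have hr2 : (2 : ℝ) ≤ r := by exact_mod_cast hr
  have hr0 : (0 : ℝ) < r := by linarith
  have hr1 : (0 : ℝ) < (r : ℝ) - 1 := by linarith
  obtain ⟨k, rfl⟩ : ∃ k, n = k + 2 := ⟨n - 2, by omega⟩
  rw [Nat.add_sub_cancel] at hb
  -- real versions
  have hmR : 16 * (r : ℝ) ^ 7 * ((k + 2 : ℕ) : ℝ) * (r : ℝ) ^ (k + 2) ≤
      ((r : ℝ) - 1) ^ (k + 2) * m := by
    have : ((16 * r ^ 7 * (k + 2) * r ^ (k + 2) : ℕ) : ℝ) ≤ (((r - 1) ^ (k + 2) * m : ℕ) : ℝ) := by
      exact_mod_cast hm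
    push_cast [Nat.cast_sub (by omega : 1 ≤ r)] at this ⊢
    exact this
  have hbR : (r : ℝ) ^ k * b ≤ ((r : ℝ) - 1) ^ k * β := by
    have : ((r ^ k * b : ℕ) : ℝ) ≤ (((r - 1) ^ k * β : ℕ) : ℝ) := by exact_mod_cast hb
    push_cast [Nat.cast_sub (by omega : 1 ≤ r)] at this
    exact this
  have hβR : (2 * (r : ℝ) + 1) * β ≤ ((k + 2 : ℕ) : ℝ) + (2 * (r : ℝ) - 3) * m := by
    have h1 : (((2 * r + 1) * β : ℕ) : ℝ) ≤ ((N + (2 * r - 3) * m : ℕ) : ℝ) := by
      exact_mod_cast hβ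
    push_cast [Nat.cast_sub (by omega : 3 ≤ 2 * r)] at h1
    have h2 : (N : ℝ) ≤ ((k + 2 : ℕ) : ℝ) := by exact_mod_cast hN.le
    linarith
  set p : ℝ := (((r : ℝ) - 1) / r) ^ (k + 2) with hp
  set nn : ℝ := ((k + 2 : ℕ) : ℝ) with hnn
  have hnn2 : 2 ≤ nn := by rw [hnn]; push_cast; have : (0:ℝ) ≤ k := Nat.cast_nonneg _; linarith
  have hμ : 16 * (r : ℝ) ^ 7 * nn ≤ p * m := by
    rw [hp, div_pow, div_mul_eq_mul_div, le_div_iff₀ (by positivity)]
    exact hmR
  set D : ℝ := (2 * (r : ℝ) + 1) * ((r : ℝ) - 1) ^ 2 with hD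
  have hD1 : 1 ≤ D := by
    rw [hD]; nlinarith [mul_nonneg hr1.le hr1.le]
  have hD0 : 0 < D := by linarith
  have hDr : D ≤ 2 * (r : ℝ) ^ 3 := by
    rw [hD]; nlinarith [mul_nonneg hr1.le hr1.le]
  have hp0 : 0 ≤ p := by rw [hp]; positivity
  have hp1 : p ≤ 1 := by
    rw [hp]
    apply pow_le_one₀
    · positivity
    · rw [div_le_one hr0]; linarith
  -- the bound for b
  have hb1 : (b : ℝ) ≤ p * (r : ℝ) ^ 2 / ((r : ℝ) - 1) ^ 2 * β := by
    have e1 : p * (r : ℝ) ^ 2 / ((r : ℝ) - 1) ^ 2 = (((r : ℝ) - 1) ^ k) / (r : ℝ) ^ k := by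
      rw [hp, div_pow, pow_add, pow_add]
      field_simp
    rw [e1, div_mul_eq_mul_div, le_div_iff₀ (by positivity)]
    linarith
  have hb2 : (b : ℝ) ≤ p * (r : ℝ) ^ 2 / D * (nn + (2 * (r : ℝ) - 3) * m) := by
    have e1 : p * (r : ℝ) ^ 2 / ((r : ℝ) - 1) ^ 2 * β =
        p * (r : ℝ) ^ 2 / D * ((2 * (r : ℝ) + 1) * β) := by
      rw [hD]
      field_simp
    rw [e1] at hb1
    refine hb1.trans (mul_le_mul_of_nonneg_left hβR (by positivity))
  have hb3 : (b : ℝ) ≤ (r : ℝ) ^ 2 * nn + (p * m - p * m / D) := by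
    have e1 : p * (r : ℝ) ^ 2 / D * (nn + (2 * (r : ℝ) - 3) * m) =
        p * (r : ℝ) ^ 2 * nn / D + (p * m - p * m / D) := by
      have : (r : ℝ) ^ 2 * (2 * (r : ℝ) - 3) = D - 1 := by rw [hD]; ring
      have h2 : p * (r : ℝ) ^ 2 / D * ((2 * (r : ℝ) - 3) * m) = p * m * (D - 1) / D := by
        rw [← this]; ring
      rw [mul_add, h2]
      field_simp
    rw [e1] at hb2
    have e2 : p * (r : ℝ) ^ 2 * nn / D ≤ (r : ℝ) ^ 2 * nn := by
      rw [div_le_iff₀ hD0]
      have h3 : 0 ≤ (r : ℝ) ^ 2 * nn := by positivity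
      nlinarith
    linarith
  -- the lower bound for K
  have hl := hK (1 / (2 * D)) (by positivity) (by
    rw [div_lt_one (by positivity)]; linarith)
  have hlog : Real.log r ≤ (r : ℝ) - 1 := Real.log_le_sub_one_of_pos hr0
  have e3 : nn * Real.log r / (1 / (2 * D)) = 2 * D * nn * Real.log r := by
    field_simp
  have e4 : (1 - 1 / (2 * D)) * (p * m) = p * m - p * m / D / 2 := by
    field_simp
  rw [e3, e4] at hl
  have h5 : 2 * D * nn * Real.log r ≤ 2 * D * nn * ((r : ℝ) - 1) :=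
    mul_le_mul_of_nonneg_left hlog (by positivity)
  have h6 : 2 * (2 * D * nn * ((r : ℝ) - 1)) * D + 2 * (nn + (r : ℝ) ^ 2 * nn) * D ≤ p * m := by
    refine le_trans ?_ hμ
    have h7 : D * D ≤ 4 * (r : ℝ) ^ 6 := by
      have := mul_le_mul hDr hDr hD0.le (by positivity)
      nlinarith
    have h8 : 2 * (2 * D * nn * ((r : ℝ) - 1)) * D ≤ 4 * nn * ((r : ℝ) - 1) * (4 * (r : ℝ) ^ 6) := by
      have : 2 * (2 * D * nn * ((r : ℝ) - 1)) * D = 4 * nn * ((r : ℝ) - 1) * (D * D) := by ring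
      rw [this]
      exact mul_le_mul_of_nonneg_left h7 (by positivity)
    have h9 : 2 * (nn + (r : ℝ) ^ 2 * nn) * D ≤ 2 * (nn + (r : ℝ) ^ 2 * nn) * (2 * (r : ℝ) ^ 3) :=
      mul_le_mul_of_nonneg_left hDr (by positivity)
    have h10 : 2 * (nn + (r : ℝ) ^ 2 * nn) * (2 * (r : ℝ) ^ 3) ≤ 16 * nn * (r : ℝ) ^ 6 := by
      have e5 : 2 * (nn + (r : ℝ) ^ 2 * nn) * (2 * (r : ℝ) ^ 3) =
          nn * (r : ℝ) ^ 3 * (4 + 4 * (r : ℝ) ^ 2) := by ring
      have e6 : 16 * nn * (r : ℝ) ^ 6 = nn * (r : ℝ) ^ 3 * (16 * (r : ℝ) ^ 3) := by ring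
      rw [e5, e6]
      apply mul_le_mul_of_nonneg_left _ (by positivity)
      have h11 : 1 ≤ (r : ℝ) ^ 2 := by nlinarith
      nlinarith [mul_nonneg hr0.le (sub_nonneg.2 h11), mul_nonneg (by positivity : (0:ℝ) ≤ r ^ 2)
        (sub_nonneg.2 hr2)]
    have e7 : 16 * (r : ℝ) ^ 7 * nn = 4 * nn * ((r : ℝ) - 1) * (4 * (r : ℝ) ^ 6) +
        16 * nn * (r : ℝ) ^ 6 := by ring
    rw [e7]
    linarith
  have h12 : (2 * D * nn * ((r : ℝ) - 1)) + (nn + (r : ℝ) ^ 2 * nn) ≤ p * m / D / 2 := by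
    rw [div_div, le_div_iff₀ (by positivity)]
    linarith
  have hfin : nn + b ≤ K := by linarith
  have : ((k + 2 + b : ℕ) : ℝ) ≤ K := by
    push_cast
    rw [hnn] at hfin
    push_cast at hfin
    linarith
  exact_mod_cast this

/-- the reduction to the extremal problem -/
theorem reduction (hr : 2 ≤ r) (hm : 16 * r ^ 7 * n * r ^ n ≤ (r - 1) ^ n * m) (k : ℕ) :
    k ≤ tp r n m ↔ ∃ χ : Fin n → Fin m → Fin r, ∀ c : Fin n → Fin r,
      k ≤ (Finset.univ.filter (fun y => ∀ x, χ x y ≠ c x)).card + (Finset.univ.image c).card := by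
  classical
  constructor
  · intro hk
    by_contra hcon
    push Not at hcon
    have hk1 : 1 ≤ k := by
      rcases Nat.eq_zero_or_pos k with h | h
      · obtain ⟨c, hc⟩ := hcon (fun _ _ => ⟨0, by omega⟩)
        omega
      · exact h
    have hle : tp r n m ≤ k - 1 := by
      apply upper_gen hr
      · intro b β N hn hb hβ hN
        refine arith_gen hr hn hm b β N hb hβ hN (k - 1) ?_
        intro l hl0 hl1
        obtain ⟨χ, hχ⟩ := exists_good (n := n) (m := m) (by omega : 1 ≤ r) l hl0 hl1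
        obtain ⟨c, hc⟩ := hcon χ
        refine (hχ c).trans ?_
        have : bad χ c ≤ k - 1 := by
          unfold bad
          omega
        exact_mod_cast this
      · intro χ
        obtain ⟨c, hc⟩ := hcon χ
        exact ⟨c, by omega⟩
    omega
  · rintro ⟨χ, hχ⟩
    exact le_tp (by omega) (fun χ => part_total (by omega) χ) χ hχ

end Pool.Agent.K6.H73.TP
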