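import Pool.Agent.H948R3.TPSimple

set_option autoImplicit false

namespace Pool.Agent.K6.H73.TP

open Pool.Agent.H948R3.TP Sum Finset

theorem part_absent {n m : ℕ} (hnm : n ≤ m) (hn : 1 ≤ n) (χ : Fin n → Fin m → Fin 2) (i j : Fin 2)
    (hij : i ≠ j) (hy : ∀ y, ∃ x, χ x y = i) : Part χ 2 := by
  classical
  have : Nonempty (Fin n) := ⟨⟨0, hn⟩⟩
  have hother : ∀ k : Fin 2, k ≠ i → k = j := by
    intro k hk
    omega
  have hother' : ∀ k : Fin 2, k ≠ j → k = i := by
    intro k hk
    omega
  by_cases hx : ∀ x, ∃ y, χ x y = i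
  · exact part_noiso χ i j hij hy hx
  · push Not at hx
    obtain ⟨x0, hx0⟩ := hx
    have hx0' : ∀ y, χ x0 y = j := fun y => hother _ (hx0 y)
    by_cases hj : ∀ x, ∃ y, χ x y = j
    · refine ⟨Unit, inferInstance, fun _ => (), by simp, ?_⟩
      rintro a _
      refine ⟨j, conn_x χ j _ x0 ?_ ?_ ?_⟩
      · simp
      · intro y _
        exact hx0' y
      · intro x _
        right
        obtain ⟨y, hxy⟩ := hj x
        exact ⟨y, by simp, hxy⟩
    · push Not at hj
      obtain ⟨x1, hx1⟩ := hj
      have hx1' : ∀ y, χ x1 y = i := fun y => hother' _ (hx1 y)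
      -- choose the neighbours
      have hch : ∀ x : {x : Fin n // ∃ y, χ x y = i}, ∃ y, χ x.1 y = i := fun x => x.2
      choose g hg using hch
      have hcard : (Finset.univ.image g).card < (Finset.univ : Finset (Fin m)).card := by
        refine Finset.card_image_le.trans_lt ?_
        rw [Finset.card_univ, Finset.card_univ, Fintype.card_fin]
        have h1 : Fintype.card {x : Fin n // ∃ y, χ x y = i} < Fintype.card (Fin n) :=
          Fintype.card_subtype_lt (x := x0) (by
            rintro ⟨y, hy⟩
            exact hx0 y hy)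
        rw [Fintype.card_fin] at h1
        omega
      obtain ⟨ys, _, hys⟩ := Finset.exists_mem_notMem_of_card_lt_card hcard
      have hys' : ∀ x, g x ≠ ys := fun x h => hys (h ▸ Finset.mem_image_of_mem _ (Finset.mem_univ _))
      refine ⟨Bool, inferInstance, fun v => match v with
        | inl x => decide (∃ y, χ x y = i)
        | inr y => decide (y ≠ ys), by simp, ?_⟩
      rintro a _
      cases a
      · refine ⟨j, conn_y χ j _ ys ?_ ?_ ?_⟩
        · simp
        · intro x hxS
          simp only [Set.mem_ofPred_eq, decide_eq_false_iff_not, not_exists] at hxS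
          exact hother _ (hxS ys)
        · intro y hyS
          left
          simpa using hyS
      · refine ⟨i, conn_x χ i _ x1 ?_ ?_ ?_⟩
        · simp only [Set.mem_ofPred_eq, decide_eq_true_eq]
          exact ⟨ys, hx1' ys⟩
        · intro y _
          exact hx1' y
        · intro x hxS
          right
          simp only [Set.mem_ofPred_eq, decide_eq_true_eq] at hxS
          refine ⟨g ⟨x, hxS⟩, ?_, hg ⟨x, hxS⟩⟩
          simp only [Set.mem_ofPred_eq, decide_eq_true_eq]
          exact hys' _

theorem part_both {n m : ℕ} (hn : 1 ≤ n) (χ : Fin n → Fin m → Fin 2)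
    (y0 y1 : Fin m) (h0 : ∀ x, χ x y0 = 0) (h1 : ∀ x, χ x y1 = 1) :
    Part χ (2 + (m - 2) / 2 ^ n) := by
  classical
  have : Nonempty (Fin n) := ⟨⟨0, hn⟩⟩
  set q := (m - 2) / 2 ^ n with hq
  by_contra hcon
  let u : (Fin n → Fin 2) → ℕ := fun c => (univ.filter (fun y => ∀ x, χ x y ≠ c x)).card
  have hu : ∀ c, q + 1 + (if c = (fun _ => 0) then 1 else 0) + (if c = (fun _ => 1) then 1 else 0)
      ≤ u c := by
    intro c
    have h01 : (fun _ : Fin n => (0 : Fin 2)) ≠ (fun _ => 1) := by
      intro h
      have := congrFun h ⟨0, hn⟩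
      exact absurd this (by decide)
    by_cases hc0 : c = (fun _ => 0)
    · rw [if_pos hc0, if_neg (by rw [hc0]; exact h01)]
      by_contra hlt
      apply hcon
      have h2 := part_one χ 0 y0 h0
      refine h2.mono ?_
      have h3 : u c = (univ.filter (fun y => ∀ x, χ x y ≠ 0)).card := by rw [hc0]
      omega
    · by_cases hc1 : c = (fun _ => 1)
      · rw [if_neg hc0, if_pos hc1]
        by_contra hlt
        apply hcon
        have h2 := part_one χ 1 y1 h1
        refine h2.mono ?_
        have h3 : u c = (univ.filter (fun y => ∀ x, χ x y ≠ 1)).card := by rw [hc1]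
        omega
      · rw [if_neg hc0, if_neg hc1]
        by_contra hlt
        apply hcon
        have e0 : ∃ x, c x = 0 := by
          by_contra h
          push Not at h
          exact hc1 (funext fun x => by have := h x; omega)
        have e1 : ∃ x, c x = 1 := by
          by_contra h
          push Not at h
          exact hc0 (funext fun x => by have := h x; omega)
        have h2 := part_two χ y0 y1 h0 h1 c e0 e1
        refine h2.mono ?_
        have h3 : u c = (univ.filter (fun y => ∀ x, χ x y ≠ c x)).card := rfl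
        omega
  have hsum : ∑ c, u c = m := by
    have h2 : ∑ c, u c = ∑ y : Fin m, (univ.filter
        (fun c : Fin n → Fin 2 => ∀ x, χ x y ≠ c x)).card := by
      simp only [u, Finset.card_filter]
      exact Finset.sum_comm
    rw [h2]
    have h3 : ∀ y : Fin m, (univ.filter
        (fun c : Fin n → Fin 2 => ∀ x, χ x y ≠ c x)).card = 1 := by
      intro y
      rw [Finset.card_eq_one]
      refine ⟨fun x => 1 - χ x y, ?_⟩
      ext c
      simp only [mem_filter, mem_univ, true_and, mem_singleton]
      constructor
      · intro h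
        funext x
        have := h x
        have e : ∀ a b : Fin 2, a ≠ b → b = 1 - a := by decide
        exact e _ _ this
      · rintro rfl x
        have e : ∀ a : Fin 2, a ≠ 1 - a := by decide
        exact e _
    rw [Finset.sum_congr rfl (fun y _ => h3 y)]
    simp
  have hle := Finset.sum_le_sum (fun c (_ : c ∈ (univ : Finset (Fin n → Fin 2))) => hu c)
  rw [hsum, Finset.sum_add_distrib, Finset.sum_add_distrib] at hle
  simp only [sum_const, card_univ, Fintype.card_pi, Fintype.card_fin, prod_const, smul_eq_mul,
      sum_ite_eq', mem_univ, if_true] at hle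
  have hpos : 0 < 2 ^ n := by positivity
  have hlt : m - 2 < 2 ^ n * (q + 1) := by
    rw [hq]
    exact Nat.lt_mul_div_succ _ hpos
  omega

/-- the upper bound -/
theorem tp_two_le {n m : ℕ} (hn : 1 ≤ n) (hnm : n ≤ m) : tp 2 n m ≤ 2 + (m - 2) / 2 ^ n := by
  classical
  apply tp_le
  intro χ
  by_cases h0 : ∃ y, ∀ x, χ x y = 0
  · by_cases h1 : ∃ y, ∀ x, χ x y = 1
    · obtain ⟨y0, h0⟩ := h0
      obtain ⟨y1, h1⟩ := h1
      exact part_both hn χ y0 y1 h0 h1
    · push Not at h1
      refine (part_absent hnm hn χ 0 1 (by decide) ?_).mono (Nat.le_add_right _ _)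
      intro y
      obtain ⟨x, hx⟩ := h1 y
      exact ⟨x, by omega⟩
  · push Not at h0
    refine (part_absent hnm hn χ 1 0 (by decide) ?_).mono (Nat.le_add_right _ _)
    intro y
    obtain ⟨x, hx⟩ := h0 y
    exact ⟨x, by omega⟩

theorem tp_two_eq {n m : ℕ} (hn : 1 ≤ n) (hnm : n ≤ m) (hm : 2 ≤ m) :
    tp 2 n m = 2 + (m - 2) / 2 ^ n := by
  refine le_antisymm (tp_two_le hn hnm) ?_
  have := lower_simple (n := n) (m := m) (r := 2) (by norm_num) hm
  simpa using this

theorem tp_one_colour {n m : ℕ} (hn : 1 ≤ n) (hm : 1 ≤ m) : tp 1 n m = 1 := by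
  apply le_antisymm
  · apply tp_le
    intro χ
    refine ⟨Unit, inferInstance, fun _ => (), by simp, ?_⟩
    rintro a _
    refine ⟨0, conn_x χ 0 _ ⟨0, hn⟩ ?_ ?_ ?_⟩
    · simp
    · intro y _
      exact Subsingleton.elim _ _
    · intro x _
      right
      exact ⟨⟨0, hm⟩, by simp, Subsingleton.elim _ _⟩
  · have := lower_simple (n := n) (m := m) (r := 1) (by norm_num) hm
    omega

/-- all cases with two colours -/
theorem tp_two (n m : ℕ) (hn : 1 ≤ n) (hm : 1 ≤ m) :
    tp 2 n m = if max n m = 1 then 1 else 2 + (max n m - 2) / 2 ^ (min n m) := by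
  by_cases h1 : max n m = 1
  · rw [if_pos h1]
    have hn1 : n = 1 := by
      have := le_max_left n m
      omega
    have hm1 : m = 1 := by
      have := le_max_right n m
      omega
    subst hn1
    subst hm1
    rw [tp_one (by norm_num)]
    rfl
  · rw [if_neg h1]
    rcases le_total n m with h | h
    · rw [max_eq_right h, min_eq_left h]
      rw [max_eq_right h] at h1
      exact tp_two_eq hn h (by omega)
    · rw [max_eq_left h, min_eq_right h, tp_symm (by norm_num)]
      rw [max_eq_left h] at h1
      exact tp_two_eq hm h (by omega)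

end Pool.Agent.K6.H73.TP
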